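import Pool.Agent.Lib.MP_27bb56_h53.Lines

/-! # MP_27bb56_co: nested rhombi, counting -/

set_option autoImplicit false

namespace MaxTri.S3

/-- the twelve kinds of triangles of maximum area: the numbers of the three lines -/
def pat : List (ℕ × ℕ × ℕ) :=
  [(1, 2, 4), (0, 3, 5), (0, 3, 6), (1, 2, 7), (2, 4, 5), (3, 4, 5), (0, 6, 7), (1, 6, 7),
    (0, 6, 8), (1, 7, 9), (2, 4, 10), (3, 5, 11)]

theorem e_add (q t : ℕ) : e (4 * q + t) = e t := by
  unfold e
  rw [show (4 * q + t) % 4 = t % 4 by omega]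

theorem g_add (q t : ℕ) : g (4 * q + t) = g t := by
  unfold g
  rw [show (4 * q + t) % 2 = t % 2 by omega]

/-- the first line of the kind `t` -/
def pa (t : ℕ) : ℕ := (pat.getD t (0, 0, 0)).1
/-- the second line of the kind `t` -/
def pb (t : ℕ) : ℕ := (pat.getD t (0, 0, 0)).2.1
/-- the third line of the kind `t` -/
def pc (t : ℕ) : ℕ := (pat.getD t (0, 0, 0)).2.2

theorem pat_lt : ∀ t < 12, pa t < pb t ∧ pb t < pc t ∧ pa t < 4 := by decide

theorem pat_inj : ∀ t < 12, ∀ t' < 12, pa t = pa t' → pb t = pb t' → pc t = pc t' → t = t' := by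
  decide

theorem tie_pat (q t : ℕ) (ht : t < 12) :
    dd (f (4 * q + pa t)) (f (4 * q + pb t)) ≠ 0 ∧ dd (f (4 * q + pb t)) (f (4 * q + pc t)) ≠ 0 ∧
    dd (f (4 * q + pa t)) (f (4 * q + pc t)) ≠ 0 ∧
    det3 (f (4 * q + pa t)) (f (4 * q + pb t)) (f (4 * q + pc t)) ^ 2 =
    |dd (f (4 * q + pa t)) (f (4 * q + pb t)) * dd (f (4 * q + pb t)) (f (4 * q + pc t)) *
      dd (f (4 * q + pa t)) (f (4 * q + pc t))| := by
  apply tie_of (m := pb t / 4 - pa t / 4) (n := pc t / 4 - pb t / 4)
  · have := pat_lt t ht; omega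
  · have := pat_lt t ht; omega
  · simp only [e_add, g_add]
    interval_cases t <;> norm_num [pa, pb, pc, pat, e, g]
  · simp only [e_add]
    interval_cases t <;> norm_num [pa, pb, pc, pat, e]
  · simp only [g_add]
    interval_cases t <;> norm_num [pa, pb, pc, pat, g]

/-- the index set of the triangles among the first `n` lines -/
def idx (n : ℕ) : Finset ((_ : ℕ) × ℕ) :=
  (Finset.range 12).sigma fun t => Finset.range ((n + 3 - pc t) / 4)

/-- the triangles among the first `n` lines -/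
def tri (x : (_ : ℕ) × ℕ) : Finset ℕ :=
  {4 * x.2 + pa x.1, 4 * x.2 + pb x.1, 4 * x.2 + pc x.1}

theorem set_inj {a b c a' b' c' : ℕ} (h1 : a < b) (h2 : b < c) (h1' : a' < b') (h2' : b' < c')
    (h : ({a, b, c} : Finset ℕ) = {a', b', c'}) : a = a' ∧ b = b' ∧ c = c' := by
  have ha : a ∈ ({a', b', c'} : Finset ℕ) := by rw [← h]; simp
  have hb : b ∈ ({a', b', c'} : Finset ℕ) := by rw [← h]; simp
  have hc : c ∈ ({a', b', c'} : Finset ℕ) := by rw [← h]; simp
  simp only [Finset.mem_insert, Finset.mem_singleton] at ha hb hc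
  omega

theorem tri_inj (n : ℕ) : Set.InjOn tri (idx n : Set ((_ : ℕ) × ℕ)) := by
  rintro ⟨t, q⟩ h ⟨t', q'⟩ h' heq
  rw [Finset.mem_coe, idx, Finset.mem_sigma, Finset.mem_range] at h h'
  have ht : t < 12 := h.1
  have ht' : t' < 12 := h'.1
  obtain ⟨a1, a2, a3⟩ := pat_lt t ht
  obtain ⟨b1, b2, b3⟩ := pat_lt t' ht'
  have heq' : ({4 * q + pa t, 4 * q + pb t, 4 * q + pc t} : Finset ℕ) =
      {4 * q' + pa t', 4 * q' + pb t', 4 * q' + pc t'} := heq
  obtain ⟨c1, c2, c3⟩ := set_inj (by omega) (by omega) (by omega) (by omega) heq'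
  have hq : q = q' := by omega
  subst hq
  have : t = t' := pat_inj t ht t' ht' (by omega) (by omega) (by omega)
  subst this
  rfl

theorem card_idx (n : ℕ) : 3 * n ≤ (idx n).card + 17 := by
  rw [idx, Finset.card_sigma]
  simp only [Finset.card_range]
  rw [Finset.sum_range_succ, Finset.sum_range_succ, Finset.sum_range_succ, Finset.sum_range_succ,
    Finset.sum_range_succ, Finset.sum_range_succ, Finset.sum_range_succ, Finset.sum_range_succ,
    Finset.sum_range_succ, Finset.sum_range_succ, Finset.sum_range_succ, Finset.sum_range_succ,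
    Finset.sum_range_zero]
  have e0 : pc 0 = 4 := rfl
  have e1 : pc 1 = 5 := rfl
  have e2 : pc 2 = 6 := rfl
  have e3 : pc 3 = 7 := rfl
  have e4 : pc 4 = 5 := rfl
  have e5 : pc 5 = 5 := rfl
  have e6 : pc 6 = 7 := rfl
  have e7 : pc 7 = 7 := rfl
  have e8 : pc 8 = 8 := rfl
  have e9 : pc 9 = 9 := rfl
  have e10 : pc 10 = 10 := rfl
  have e11 : pc 11 = 11 := rfl
  rw [e0, e1, e2, e3, e4, e5, e6, e7, e8, e9, e10, e11]
  omega

theorem lower (n : ℕ) : 3 * n ≤ M n + 17 := by
  rcases Nat.lt_or_ge n 6 with hn | hn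
  · omega
  · have hcard : ((idx n).image tri).card = (idx n).card :=
      Finset.card_image_of_injOn (tri_inj n)
    have h := M_ge' f_ne f_inj (fun i j k hij hjk => ok_f i j k hij hjk) n ((idx n).image tri)
      (by
        rw [← Finset.card_pos, hcard]
        have := card_idx n
        omega)
      (by
        intro T hT
        rw [Finset.mem_image] at hT
        obtain ⟨⟨t, q⟩, hx, rfl⟩ := hT
        rw [idx, Finset.mem_sigma, Finset.mem_range, Finset.mem_range] at hx
        obtain ⟨ht, hq⟩ := hx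
        simp only at ht hq
        obtain ⟨a1, a2, a3⟩ := pat_lt t ht
        obtain ⟨d1, d2, d3, d4⟩ := tie_pat q t ht
        exact ⟨4 * q + pa t, 4 * q + pb t, 4 * q + pc t, by omega, by omega, by omega, rfl,
          d1, d2, d3, d4⟩)
    rw [hcard] at h
    have := card_idx n
    omega

end MaxTri.S3
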