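import Pool.Agent.Lib.MP_27bb56_co_TRI.Count

/-! # MP_27bb56_co: nested rhombi, the inequalities -/

set_option autoImplicit false

namespace MaxTri.S3

/-- `√2` -/
noncomputable def w : ℝ := √2

theorem w2 : w ^ 2 = 2 := Real.sq_sqrt (by norm_num)

theorem w_pos : 0 < w := Real.sqrt_pos.mpr (by norm_num)

theorem w_lo : 14142 / 10000 < w := by
  have h := w2
  have h0 := w_pos
  nlinarith

theorem w_hi : w < 141422 / 100000 := by
  have h := w2
  have h0 := w_pos
  nlinarith

/-- the scaling factor -/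
noncomputable def s : ℝ := 1 + w

/-- the inverse of `s` -/
noncomputable def r : ℝ := w - 1

/-- the square of the right hand side of the lines -/
noncomputable def K : ℝ := 3 * w - 4

theorem rs : r * s = 1 := by
  unfold r s; linear_combination w2

theorem s_lo : 2414 / 1000 ≤ s := by
  unfold s; linarith [w_lo]

theorem s_pos : 0 < s := lt_of_lt_of_le (by norm_num) s_lo

theorem r_pos : 0 < r := by
  unfold r; linarith [w_lo]

theorem K_pos : 0 < K := by
  unfold K; linarith [w_lo]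

theorem K_hi : K ≤ 2427 / 10000 := by
  unfold K; linarith [w_hi]

theorem ineq11 {p q : ℝ} (hp : s ≤ p) (hq : s ≤ q) :
    K * (p * q - 1) * (p + 1) * (q + 1) ≤ (p - 1) * (q - 1) * (p * q + 1) := by
  obtain ⟨a, rfl⟩ : ∃ a, p = s + a := ⟨p - s, by ring⟩
  obtain ⟨b, rfl⟩ : ∃ b, q = s + b := ⟨q - s, by ring⟩
  have ha : 0 ≤ a := by linarith
  have hb : 0 ≤ b := by linarith
  have key : (s + a - 1) * (s + b - 1) * ((s + a) * (s + b) + 1) -
      K * ((s + a) * (s + b) - 1) * (s + a + 1) * (s + b + 1) =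
      (5 - 3 * w) * a ^ 2 * b ^ 2 + (1 + w) * (a ^ 2 * b + a * b ^ 2) + (2 + 4 * w) * a * b +
      w * (a ^ 2 + b ^ 2) + (4 * w - 2) * (a + b) := by
    unfold s K
    linear_combination ((-3)*w^3 + (-6)*w^2*a + (-6)*w^2*b + (-13)*w^2 + (-3)*w*a^2 +
      (-12)*w*a*b + (-17)*w*a + (-3)*w*b^2 + (-17)*w*b + (-16)*w + (-6)*a^2*b + (-4)*a^2 +
      (-6)*a*b^2 + (-16)*a*b + (-9)*a + (-4)*b^2 + (-9)*b) * w2
  have h1 : 0 ≤ 5 - 3 * w := by linarith [w_hi]
  have h2 : 0 ≤ 4 * w - 2 := by linarith [w_lo]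
  have h3 := w_pos
  have : 0 ≤ (5 - 3 * w) * a ^ 2 * b ^ 2 + (1 + w) * (a ^ 2 * b + a * b ^ 2) +
      (2 + 4 * w) * a * b + w * (a ^ 2 + b ^ 2) + (4 * w - 2) * (a + b) := by positivity
  linarith

theorem rat1 {a b : ℝ} (ha : 0 ≤ a) (hb : 0 ≤ b) :
    2427 / 10000 * (((2414 / 1000 + a) ^ 2 * (2414 / 1000 + b) ^ 2 + 1) +
      ((2414 / 1000 + a) ^ 2 - 1) * (2414 / 1000 + b) +
      ((2414 / 1000 + b) ^ 2 + 1) * (2414 / 1000 + a)) ^ 2 ≤
    ((2414 / 1000 + a) ^ 2 - 1) * ((2414 / 1000 + b) ^ 2 + 1) *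
      ((2414 / 1000 + a) ^ 2 * (2414 / 1000 + b) ^ 2 + 1) := by
  have h : 0 ≤
      (7573/10000)*a^4*b^4 + (8533861/1250000)*a^4*b^3 + (29650693931/1250000000)*a^4*b^2 +
      (11807236977489/312500000000)*a^4*b + (14563505357638973/625000000000000)*a^4 +
      (8533861/1250000)*a^3*b^4 + (9492179227/156250000)*a^3*b^3 +
      (32511453994967/156250000000)*a^3*b^2 + (12742432655232723/39062500000000)*a^3*b +
      (15444390432235108661/78125000000000000)*a^3 + (27150693931/1250000000)*a^2*b^4 +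
      (29645641494967/156250000000)*a^2*b^3 + (99542516664875757/156250000000000)*a^2*b^2 +
      (38166106861065388483/39062500000000000)*a^2*b +
      (45180988318857588019731/78125000000000000000)*a^2 + (8789736977489/312500000000)*a*b^4 +
      (9321318842732723/39062500000000)*a*b^3 +
      (30311610712877888483/39062500000000000)*a*b^2 +
      (11201857408382196287827/9765625000000000000)*a*b +
      (12733254145062355609332689/19531250000000000000000)*a +
      (7279260357638973/625000000000000)*b^4 + (7277365095110108661/78125000000000000)*b^3 +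
      (21954379122600588019731/78125000000000000000)*b^2 +
      (7336597660957966484332689/19531250000000000000000)*b +
      (7267729257245763613113290373/39062500000000000000000000) := by
    positivity
  nlinarith [h]

theorem rat2 {a b : ℝ} (ha : 0 ≤ a) (hb : 0 ≤ b) :
    2427 / 10000 * (((2414 / 1000 + a) ^ 2 * (2414 / 1000 + b) ^ 2 - 1) +
      ((2414 / 1000 + a) ^ 2 + 1) * (2414 / 1000 + b) +
      ((2414 / 1000 + b) ^ 2 + 1) * (2414 / 1000 + a)) ^ 2 ≤
    ((2414 / 1000 + a) ^ 2 + 1) * ((2414 / 1000 + b) ^ 2 + 1) *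
      ((2414 / 1000 + a) ^ 2 * (2414 / 1000 + b) ^ 2 - 1) := by
  have h : 0 ≤
      (7573/10000)*a^4*b^4 + (8533861/1250000)*a^4*b^3 + (29650693931/1250000000)*a^4*b^2 +
      (11807236977489/312500000000)*a^4*b + (14563505357638973/625000000000000)*a^4 +
      (8533861/1250000)*a^3*b^4 + (9492179227/156250000)*a^3*b^3 +
      (32511453994967/156250000000)*a^3*b^2 + (12742432655232723/39062500000000)*a^3*b +
      (15444390432235108661/78125000000000000)*a^3 + (29650693931/1250000000)*a^2*b^4 +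
      (32511453994967/156250000000)*a^2*b^3 + (109370363289875757/156250000000000)*a^2*b^2 +
      (41937113245502888483/39062500000000000)*a^2*b +
      (49446928294544838019731/78125000000000000000)*a^2 +
      (11807236977489/312500000000)*a*b^4 + (12742432655232723/39062500000000)*a*b^3 +
      (41937113245502888483/39062500000000000)*a*b^2 +
      (15624014011757633787827/9765625000000000000)*a*b +
      (17699195981731803859332689/19531250000000000000000)*a +
      (14563505357638973/625000000000000)*b^4 + (15444390432235108661/78125000000000000)*b^3 +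
      (49446928294544838019731/78125000000000000000)*b^2 +
      (17699195981731803859332689/19531250000000000000000)*b +
      (18813635669405870813613290373/39062500000000000000000000) := by
    positivity
  nlinarith [h]

theorem case_a {p q : ℝ} (hp : s ≤ p) (hq : s ≤ q) :
    K * ((p ^ 2 * q ^ 2 + 1) + (p ^ 2 - 1) * q + (q ^ 2 + 1) * p) ^ 2 ≤
    (p ^ 2 - 1) * (q ^ 2 + 1) * (p ^ 2 * q ^ 2 + 1) := by
  have h := rat1 (a := p - 2414 / 1000) (b := q - 2414 / 1000) (by linarith [s_lo])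
    (by linarith [s_lo])
  rw [show 2414 / 1000 + (p - 2414 / 1000) = p by ring,
    show 2414 / 1000 + (q - 2414 / 1000) = q by ring] at h
  exact (mul_le_mul_of_nonneg_right K_hi (sq_nonneg _)).trans h

theorem case_b {p q : ℝ} (hp : s ≤ p) (hq : s ≤ q) :
    K * ((p ^ 2 * q ^ 2 - 1) + (p ^ 2 + 1) * q + (q ^ 2 + 1) * p) ^ 2 ≤
    (p ^ 2 + 1) * (q ^ 2 + 1) * (p ^ 2 * q ^ 2 - 1) := by
  have h := rat2 (a := p - 2414 / 1000) (b := q - 2414 / 1000) (by linarith [s_lo])
    (by linarith [s_lo])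
  rw [show 2414 / 1000 + (p - 2414 / 1000) = p by ring,
    show 2414 / 1000 + (q - 2414 / 1000) = q by ring] at h
  exact (mul_le_mul_of_nonneg_right K_hi (sq_nonneg _)).trans h

theorem case_c {p q : ℝ} (hp : s ≤ p) (hq : s ≤ q) :
    K * ((p ^ 2 * q ^ 2 - 1) + (p ^ 2 - 1) * q + (q ^ 2 - 1) * p) ^ 2 ≤
    (p ^ 2 - 1) * (q ^ 2 - 1) * (p ^ 2 * q ^ 2 - 1) := by
  have h := ineq11 hp hq
  have hs := s_lo
  have e : (p ^ 2 * q ^ 2 - 1) + (p ^ 2 - 1) * q + (q ^ 2 - 1) * p =
      (p * q - 1) * (p + 1) * (q + 1) := by ring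
  have hp1 : 1 ≤ p := by linarith
  have hq1 : 1 ≤ q := by linarith
  have hpq : 0 ≤ p * q - 1 := by nlinarith
  have h0 : 0 ≤ (p * q - 1) * (p + 1) * (q + 1) := by positivity
  rw [e]
  have := mul_le_mul_of_nonneg_right h h0
  nlinarith [this]

theorem case_d {q : ℝ} (hq : s ≤ q) :
    K * (2 * q ^ 2 + 2 * q) ^ 2 ≤ 2 * (q ^ 4 - 1) := by
  have hs := s_lo
  have h1 : 0 ≤ q - s := by linarith
  have h2 : 0 ≤ (9 - 6 * w) * q ^ 2 - (3 * w - 4) * q + (w - 1) := by
    have := w_lo
    have := w_hi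
    nlinarith [sq_nonneg q]
  have key : 2 * (q ^ 4 - 1) - K * (2 * q ^ 2 + 2 * q) ^ 2 =
      2 * (q + 1) * ((q - s) * ((9 - 6 * w) * q ^ 2 - (3 * w - 4) * q + (w - 1))) := by
    unfold s K
    linear_combination (-12 * q ^ 3 - 18 * q ^ 2 - 4 * q + 2) * w2
  have : 0 ≤ 2 * (q + 1) * ((q - s) * ((9 - 6 * w) * q ^ 2 - (3 * w - 4) * q + (w - 1))) :=
    mul_nonneg (by linarith) (mul_nonneg h1 h2)
  linarith

end MaxTri.S3
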