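import Pool.Agent.Lib.MP_27bb56_h53.Ineq
import Pool.Agent.Lib.MP_27bb56_h53.Par

/-! # MP_27bb56_co: nested rhombi, the lines -/

set_option autoImplicit false

namespace MaxTri.S3

theorem main {p q A B : ℝ} (hA : A = 1 ∨ A = -1) (hB : B = 1 ∨ B = -1)
    (hp : (p = 1 ∧ A = -1) ∨ s ≤ p) (hq : (q = 1 ∧ B = -1) ∨ s ≤ q) (h : s ≤ p ∨ s ≤ q) :
    K * ((p ^ 2 * q ^ 2 - A * B) + (p ^ 2 - A) * q + (q ^ 2 - B) * p) ^ 2 ≤
    (p ^ 2 - A) * (q ^ 2 - B) * (p ^ 2 * q ^ 2 - A * B) := by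
  have hs := s_lo
  rcases hp with ⟨rfl, rfl⟩ | hp
  · have hq' : s ≤ q := by
      rcases h with h | h
      · exact absurd h (by linarith)
      · exact h
    have hd := case_d hq'
    have hB2 : B ^ 2 = 1 := by rcases hB with rfl | rfl <;> norm_num
    have e1 : ((1 : ℝ) ^ 2 * q ^ 2 - -1 * B) + (1 ^ 2 - -1) * q + (q ^ 2 - B) * 1 =
        2 * q ^ 2 + 2 * q := by ring
    have e2 : ((1 : ℝ) ^ 2 - -1) * (q ^ 2 - B) * (1 ^ 2 * q ^ 2 - -1 * B) = 2 * (q ^ 4 - 1) := by
      linear_combination (-2) * hB2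
    rw [e1, e2]
    exact hd
  · rcases hq with ⟨rfl, rfl⟩ | hq
    · have hd := case_d hp
      have hA2 : A ^ 2 = 1 := by rcases hA with rfl | rfl <;> norm_num
      have e1 : (p ^ 2 * (1 : ℝ) ^ 2 - A * -1) + (p ^ 2 - A) * 1 + (1 ^ 2 - -1) * p =
          2 * p ^ 2 + 2 * p := by ring
      have e2 : (p ^ 2 - A) * ((1 : ℝ) ^ 2 - -1) * (p ^ 2 * 1 ^ 2 - A * -1) =
          2 * (p ^ 4 - 1) := by
        linear_combination (-2) * hA2
      rw [e1, e2]
      exact hd
    · rcases hA with rfl | rfl <;> rcases hB with rfl | rfl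
      · have := case_c hp hq
        norm_num
        exact this
      · have := case_a hp hq
        norm_num
        exact this
      · have := case_a hq hp
        norm_num
        linarith
      · have := case_b hp hq
        norm_num
        exact this

theorem main' {p q A B g1 g2 : ℝ} (hA : A = 1 ∨ A = -1) (hB : B = 1 ∨ B = -1)
    (hp : (p = 1 ∧ A = -1) ∨ s ≤ p) (hq : (q = 1 ∧ B = -1) ∨ s ≤ q) (h : s ≤ p ∨ s ≤ q)
    (h1 : g1 = 1 ∨ g1 = -1) (h2 : g2 = 1 ∨ g2 = -1) :
    K * ((p ^ 2 * q ^ 2 - A * B) + g1 * ((p ^ 2 - A) * q) + g2 * ((q ^ 2 - B) * p)) ^ 2 ≤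
    (p ^ 2 - A) * (q ^ 2 - B) * (p ^ 2 * q ^ 2 - A * B) := by
  have hs := s_lo
  have hp1 : 1 ≤ p := by
    rcases hp with ⟨rfl, -⟩ | hp
    · exact le_rfl
    · linarith
  have hq1 : 1 ≤ q := by
    rcases hq with ⟨rfl, -⟩ | hq
    · exact le_rfl
    · linarith
  have hP : 1 ≤ p ^ 2 := one_le_pow₀ hp1
  have hQ : 1 ≤ q ^ 2 := one_le_pow₀ hq1
  have hPQ : 1 ≤ p ^ 2 * q ^ 2 := one_le_mul_of_one_le_of_one_le hP hQ
  have hA1 : A ≤ 1 := by rcases hA with rfl | rfl <;> norm_num
  have hB1 : B ≤ 1 := by rcases hB with rfl | rfl <;> norm_num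
  have hAB : A * B ≤ 1 := by rcases hA with rfl | rfl <;> rcases hB with rfl | rfl <;> norm_num
  have hX : 0 ≤ p ^ 2 * q ^ 2 - A * B := by linarith
  have hY : 0 ≤ (p ^ 2 - A) * q := mul_nonneg (by linarith) (by linarith)
  have hZ : 0 ≤ (q ^ 2 - B) * p := mul_nonneg (by linarith) (by linarith)
  refine le_trans (mul_le_mul_of_nonneg_left ?_ K_pos.le) (main hA hB hp hq h)
  apply sq_le_sq'
  · rcases h1 with rfl | rfl <;> rcases h2 with rfl | rfl <;> linarith
  · rcases h1 with rfl | rfl <;> rcases h2 with rfl | rfl <;> linarith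

/-- sign of the line with the number `t` -/
def e (t : ℕ) : ℝ := if t % 4 < 2 then 1 else -1

/-- type of the line with the number `t` -/
def g (t : ℕ) : ℝ := if t % 2 = 0 then 1 else -1

/-- right hand side -/
noncomputable def k : ℝ := √K

theorem k_sq : k ^ 2 = K := Real.sq_sqrt K_pos.le

theorem k_pos : 0 < k := Real.sqrt_pos.mpr K_pos

/-- the lines: four on each level `m / 4` -/
noncomputable def f (m : ℕ) : ℝ × ℝ × ℝ := (e m * r ^ (m / 4), e m * g m * s ^ (m / 4), k)

theorem he (t : ℕ) : e t = 1 ∨ e t = -1 := by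
  unfold e; split_ifs <;> simp

theorem hg (t : ℕ) : g t = 1 ∨ g t = -1 := by
  unfold g; split_ifs <;> simp

theorem e_sq (t : ℕ) : e t ^ 2 = 1 := by rcases he t with h | h <;> rw [h] <;> norm_num

theorem g_sq (t : ℕ) : g t ^ 2 = 1 := by rcases hg t with h | h <;> rw [h] <;> norm_num

theorem e_ne (t : ℕ) : e t ≠ 0 := by rcases he t with h | h <;> rw [h] <;> norm_num

theorem g_ne (t : ℕ) : g t ≠ 0 := by rcases hg t with h | h <;> rw [h] <;> norm_num

theorem rs_pow (n : ℕ) : r ^ n * s ^ n = 1 := by rw [← mul_pow, rs, one_pow]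

theorem dd_f {u v m : ℕ} (h : v / 4 = u / 4 + m) :
    dd (f u) (f v) = e u * e v * (g v * s ^ m - g u * r ^ m) := by
  unfold dd f
  simp only
  rw [h, pow_add, pow_add]
  linear_combination (e u * e v * (g v * s ^ m - g u * r ^ m)) * rs_pow (u / 4)

theorem dd_f' {u v m : ℕ} (h : v / 4 = u / 4 + m) :
    dd (f u) (f v) * s ^ m = e u * e v * g v * ((s ^ m) ^ 2 - g u * g v) := by
  rw [dd_f h]
  linear_combination (- e u * e v * g u) * rs_pow m + (e u * e v * g u) * g_sq v

theorem sgn_mul {a b : ℝ} (ha : a = 1 ∨ a = -1) (hb : b = 1 ∨ b = -1) :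
    a * b = 1 ∨ a * b = -1 := by
  rcases ha with rfl | rfl <;> rcases hb with rfl | rfl <;> norm_num

theorem pow_cases (m : ℕ) : m = 0 ∨ s ≤ s ^ m := by
  rcases Nat.eq_zero_or_pos m with h | h
  · exact Or.inl h
  · right
    have h1 : (1 : ℝ) ≤ s := by linarith [s_lo]
    calc s = s ^ 1 := (pow_one s).symm
      _ ≤ s ^ m := pow_le_pow_right₀ h1 h

theorem det_sq {u v x m n : ℕ} (h : v / 4 = u / 4 + m) (h' : x / 4 = v / 4 + n) :
    (det3 (f u) (f v) (f x) * (s ^ m * s ^ n)) ^ 2 =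
    K * (((s ^ m) ^ 2 * (s ^ n) ^ 2 - g u * g v * (g v * g x)) +
      (- (e v * e x * (g v * g x))) * (((s ^ m) ^ 2 - g u * g v) * s ^ n) +
      (- (e u * e v)) * (((s ^ n) ^ 2 - g v * g x) * s ^ m)) ^ 2 := by
  have h'' : x / 4 = u / 4 + (m + n) := by omega
  have hx := dd_f' h
  have hy := dd_f' h'
  have hz := dd_f' h''
  rw [pow_add] at hz
  have hdet : det3 (f u) (f v) (f x) * (s ^ m * s ^ n) = k *
      (e v * e x * g x * ((s ^ n) ^ 2 - g v * g x) * s ^ m -
        e u * e x * g x * ((s ^ m * s ^ n) ^ 2 - g u * g x) +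
        e u * e v * g v * ((s ^ m) ^ 2 - g u * g v) * s ^ n) := by
    have : det3 (f u) (f v) (f x) = k * (dd (f v) (f x) - dd (f u) (f x) + dd (f u) (f v)) := by
      unfold det3 f
      simp only
      ring
    rw [this]
    linear_combination (k * s ^ n) * hx + (k * s ^ m) * hy - k * hz
  rw [hdet, ← k_sq]
  rcases he u with a1 | a1 <;> rcases he v with a2 | a2 <;> rcases he x with a3 | a3 <;>
    rcases hg u with b1 | b1 <;> rcases hg v with b2 | b2 <;> rcases hg x with b3 | b3 <;>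
    rw [a1, a2, a3, b1, b2, b3] <;> ring

theorem prod_abs {u v x m n : ℕ} (h : v / 4 = u / 4 + m) (h' : x / 4 = v / 4 + n)
    (hX : 0 ≤ ((s ^ m) ^ 2 - g u * g v) * ((s ^ n) ^ 2 - g v * g x) *
      ((s ^ m) ^ 2 * (s ^ n) ^ 2 - g u * g v * (g v * g x))) :
    |dd (f u) (f v) * dd (f v) (f x) * dd (f u) (f x)| * (s ^ m * s ^ n) ^ 2 =
    ((s ^ m) ^ 2 - g u * g v) * ((s ^ n) ^ 2 - g v * g x) *
      ((s ^ m) ^ 2 * (s ^ n) ^ 2 - g u * g v * (g v * g x)) := by
  have h'' : x / 4 = u / 4 + (m + n) := by omega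
  have hx := dd_f' h
  have hy := dd_f' h'
  have hz := dd_f' h''
  rw [pow_add] at hz
  have hgg : g u * g x = g u * g v * (g v * g x) := by linear_combination (- g u * g x) * g_sq v
  have e1 : dd (f u) (f v) * dd (f v) (f x) * dd (f u) (f x) * (s ^ m * s ^ n) ^ 2 =
      (e u * e v * g v * ((s ^ m) ^ 2 - g u * g v)) *
      (e v * e x * g x * ((s ^ n) ^ 2 - g v * g x)) *
      (e u * e x * g x * ((s ^ m * s ^ n) ^ 2 - g u * g x)) := by
    rw [← hx, ← hy, ← hz]; ring
  have e2 : (e u * e v * g v * ((s ^ m) ^ 2 - g u * g v)) *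
      (e v * e x * g x * ((s ^ n) ^ 2 - g v * g x)) *
      (e u * e x * g x * ((s ^ m * s ^ n) ^ 2 - g u * g x)) = g v *
      (((s ^ m) ^ 2 - g u * g v) * ((s ^ n) ^ 2 - g v * g x) *
      ((s ^ m) ^ 2 * (s ^ n) ^ 2 - g u * g v * (g v * g x))) := by
    rw [hgg]
    rcases he u with a1 | a1 <;> rcases he v with a2 | a2 <;> rcases he x with a3 | a3 <;>
      rcases hg x with b3 | b3 <;> rw [a1, a2, a3, b3] <;> ring
  have hpos : (0 : ℝ) ≤ (s ^ m * s ^ n) ^ 2 := sq_nonneg _
  rw [← abs_of_nonneg hpos, ← abs_mul, e1, e2, abs_mul]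
  have : |g v| = 1 := by rcases hg v with h | h <;> rw [h] <;> norm_num
  rw [this, one_mul, abs_of_nonneg hX]

theorem dd_zero_level {u v : ℕ} (h : v / 4 = u / 4 + 0) (hd : dd (f u) (f v) ≠ 0) :
    g u * g v = -1 := by
  rw [dd_f h] at hd
  rcases hg u with a | a <;> rcases hg v with b | b <;> rw [a, b] at hd
  · exact absurd (by ring) hd
  · rw [a, b]; norm_num
  · rw [a, b]; norm_num
  · exact absurd (by ring) hd

theorem ok_f (u v x : ℕ) (huv : u < v) (hvx : v < x) : Ok' (f u) (f v) (f x) := by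
  intro h1 h2 h3
  obtain ⟨m, hm⟩ : ∃ m, v / 4 = u / 4 + m := ⟨v / 4 - u / 4, by omega⟩
  obtain ⟨n, hn⟩ : ∃ n, x / 4 = v / 4 + n := ⟨x / 4 - v / 4, by omega⟩
  have hA := sgn_mul (hg u) (hg v)
  have hB := sgn_mul (hg v) (hg x)
  have hp : (s ^ m = 1 ∧ g u * g v = -1) ∨ s ≤ s ^ m := by
    rcases pow_cases m with rfl | h
    · exact Or.inl ⟨pow_zero s, dd_zero_level hm h1⟩
    · exact Or.inr h
  have hq : (s ^ n = 1 ∧ g v * g x = -1) ∨ s ≤ s ^ n := by
    rcases pow_cases n with rfl | h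
    · exact Or.inl ⟨pow_zero s, dd_zero_level hn h2⟩
    · exact Or.inr h
  have hpq : s ≤ s ^ m ∨ s ≤ s ^ n := by
    rcases pow_cases m with rfl | h
    · rcases pow_cases n with rfl | h'
      · exfalso
        have k1 := dd_zero_level hm h1
        have k2 := dd_zero_level hn h2
        have k3 := dd_zero_level (u := u) (v := x) (by omega) h3
        have := g_sq v
        nlinarith
      · exact Or.inr h'
    · exact Or.inl h
  have key := main' (g1 := - (e v * e x * (g v * g x))) (g2 := - (e u * e v)) hA hB hp hq hpq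
    (by
      have := sgn_mul (sgn_mul (he v) (he x)) hB
      rcases this with h | h <;> rw [h] <;> norm_num)
    (by
      have := sgn_mul (he u) (he v)
      rcases this with h | h <;> rw [h] <;> norm_num)
  have hX : 0 ≤ ((s ^ m) ^ 2 - g u * g v) * ((s ^ n) ^ 2 - g v * g x) *
      ((s ^ m) ^ 2 * (s ^ n) ^ 2 - g u * g v * (g v * g x)) :=
    le_trans (mul_nonneg K_pos.le (sq_nonneg _)) key
  rw [← det_sq hm hn, ← prod_abs hm hn hX, mul_pow] at key
  have hpos : 0 < (s ^ m * s ^ n) ^ 2 := by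
    have := s_pos
    positivity
  exact le_of_mul_le_mul_right key hpos

theorem tie_of {u v x m n : ℕ} (hm : v / 4 = u / 4 + m) (hn : x / 4 = v / 4 + n)
    (h1 : e v * e x * (g v * g x) = -1) (h2 : e u * e v = -1)
    (h : (m = 1 ∧ n = 1 ∧ g u * g v = 1 ∧ g v * g x = 1) ∨ (m = 0 ∧ n = 1 ∧ g u * g v = -1) ∨
      (m = 1 ∧ n = 0 ∧ g v * g x = -1)) :
    dd (f u) (f v) ≠ 0 ∧ dd (f v) (f x) ≠ 0 ∧ dd (f u) (f x) ≠ 0 ∧
    det3 (f u) (f v) (f x) ^ 2 = |dd (f u) (f v) * dd (f v) (f x) * dd (f u) (f x)| := by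
  have hs := s_lo
  have hs2 : (5 : ℝ) ≤ s ^ 2 := by nlinarith
  have hs4 : (5 : ℝ) ≤ s ^ 4 := by nlinarith
  have hA := sgn_mul (hg u) (hg v)
  have hB := sgn_mul (hg v) (hg x)
  have hB2 : (g v * g x) ^ 2 = 1 := by rcases hB with h | h <;> rw [h] <;> norm_num
  have hA2 : (g u * g v) ^ 2 = 1 := by rcases hA with h | h <;> rw [h] <;> norm_num
  have heq : K * (((s ^ m) ^ 2 * (s ^ n) ^ 2 - g u * g v * (g v * g x)) +
      (- (e v * e x * (g v * g x))) * (((s ^ m) ^ 2 - g u * g v) * s ^ n) +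
      (- (e u * e v)) * (((s ^ n) ^ 2 - g v * g x) * s ^ m)) ^ 2 =
      ((s ^ m) ^ 2 - g u * g v) * ((s ^ n) ^ 2 - g v * g x) *
      ((s ^ m) ^ 2 * (s ^ n) ^ 2 - g u * g v * (g v * g x)) ∧
      0 < ((s ^ m) ^ 2 - g u * g v) * ((s ^ n) ^ 2 - g v * g x) *
      ((s ^ m) ^ 2 * (s ^ n) ^ 2 - g u * g v * (g v * g x)) := by
    rw [h1, h2]
    rcases h with ⟨rfl, rfl, a, b⟩ | ⟨rfl, rfl, a⟩ | ⟨rfl, rfl, b⟩
    · rw [a, b, pow_one]
      constructor
      · unfold s K
        linear_combination (3 * w ^ 7 + 31 * w ^ 6 + 130 * w ^ 5 + 276 * w ^ 4 + 296 * w ^ 3 +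
          128 * w ^ 2) * w2
      · have : 0 < (s ^ 2 - 1) * (s ^ 2 - 1) * (s ^ 2 * s ^ 2 - 1 * 1) := by
          have h5 : 0 < s ^ 2 - 1 := by linarith
          have h6 : 0 < s ^ 2 * s ^ 2 - 1 * 1 := by nlinarith
          positivity
        exact this
    · rw [a, pow_one, pow_zero]
      constructor
      · have e1 : ((1 : ℝ) ^ 2 * s ^ 2 - -1 * (g v * g x)) + - -1 * ((1 ^ 2 - -1) * s) +
            - -1 * ((s ^ 2 - g v * g x) * 1) = 2 * s ^ 2 + 2 * s := by ring
        rw [e1]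
        have e2 : ((1 : ℝ) ^ 2 - -1) * (s ^ 2 - g v * g x) * (1 ^ 2 * s ^ 2 - -1 * (g v * g x)) =
            2 * (s ^ 4 - 1) := by linear_combination (-2) * hB2
        rw [e2]
        unfold s K
        linear_combination (12 * w ^ 3 + 54 * w ^ 2 + 76 * w + 32) * w2
      · have e2 : ((1 : ℝ) ^ 2 - -1) * (s ^ 2 - g v * g x) * (1 ^ 2 * s ^ 2 - -1 * (g v * g x)) =
            2 * (s ^ 4 - 1) := by linear_combination (-2) * hB2
        rw [e2]
        linarith
    · rw [b, pow_one, pow_zero]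
      constructor
      · have e1 : (s ^ 2 * (1 : ℝ) ^ 2 - g u * g v * -1) + - -1 * ((s ^ 2 - g u * g v) * 1) +
            - -1 * ((1 ^ 2 - -1) * s) = 2 * s ^ 2 + 2 * s := by ring
        rw [e1]
        have e2 : (s ^ 2 - g u * g v) * ((1 : ℝ) ^ 2 - -1) * (s ^ 2 * 1 ^ 2 - g u * g v * -1) =
            2 * (s ^ 4 - 1) := by linear_combination (-2) * hA2
        rw [e2]
        unfold s K
        linear_combination (12 * w ^ 3 + 54 * w ^ 2 + 76 * w + 32) * w2
      · have e2 : (s ^ 2 - g u * g v) * ((1 : ℝ) ^ 2 - -1) * (s ^ 2 * 1 ^ 2 - g u * g v * -1) =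
            2 * (s ^ 4 - 1) := by linear_combination (-2) * hA2
        rw [e2]
        linarith
  obtain ⟨heq, hpos⟩ := heq
  have hprod := prod_abs hm hn hpos.le
  have hne : |dd (f u) (f v) * dd (f v) (f x) * dd (f u) (f x)| ≠ 0 := by
    intro h0
    rw [h0, zero_mul] at hprod
    linarith
  have hne' := abs_ne_zero.mp hne
  have hdet := det_sq (u := u) hm hn
  rw [heq, ← hprod, mul_pow] at hdet
  have hpos' : (s ^ m * s ^ n) ^ 2 ≠ 0 := by
    have := s_pos
    positivity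
  exact ⟨fun h => hne' (by rw [h]; ring), fun h => hne' (by rw [h]; ring),
    fun h => hne' (by rw [h]; ring), mul_right_cancel₀ hpos' hdet⟩

theorem f_ne (i : ℕ) : (f i).1 ≠ 0 ∨ (f i).2.1 ≠ 0 :=
  Or.inl (mul_ne_zero (e_ne i) (pow_ne_zero _ r_pos.ne'))

theorem f_inj : Function.Injective fun i => lineOf (f i) := by
  have key : ∀ i j : ℕ, i < j → lineOf (f i) ≠ lineOf (f j) := by
    intro i j hij heq
    obtain ⟨m, hm⟩ : ∃ m, j / 4 = i / 4 + m := ⟨j / 4 - i / 4, by omega⟩
    by_cases hd : dd (f i) (f j) = 0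
    · rw [dd_f hm] at hd
      have hee : e i * e j ≠ 0 := mul_ne_zero (e_ne i) (e_ne j)
      have h0 : g j * s ^ m - g i * r ^ m = 0 := by
        rcases mul_eq_zero.mp hd with h | h
        · exact absurd h hee
        · exact h
      have hsm : 0 < s ^ m := pow_pos s_pos m
      have hrm : 0 < r ^ m := pow_pos r_pos m
      have hr1 : r < 1 := by unfold r; linarith [w_hi]
      have hm0 : m = 0 := by
        rcases pow_cases m with h | h
        · exact h
        · exfalso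
          have h2 : r ^ m * s ^ m = 1 := rs_pow m
          have h3 : s ^ m = r ^ m ∨ s ^ m = - r ^ m := by
            rcases hg i with a | a <;> rcases hg j with b | b <;> rw [a, b] at h0
            · left; linarith
            · right; linarith
            · right; linarith
            · left; linarith
          have h4 := s_lo
          rcases h3 with h3 | h3
          · rw [← h3] at h2
            nlinarith
          · linarith
      subst hm0
      have hgg : g i = g j := by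
        rcases hg i with a | a <;> rcases hg j with b | b <;> rw [a, b] at h0 ⊢ <;>
          norm_num at h0
      have hje : e j = - e i := by
        unfold e
        have h5 : i % 2 = j % 2 := by
          unfold g at hgg
          by_contra hne
          rcases Nat.mod_two_eq_zero_or_one i with a | a <;>
            rcases Nat.mod_two_eq_zero_or_one j with b | b <;> rw [a, b] at hgg <;>
            first | omega | norm_num at hgg
        have h6 : i % 4 < 2 ∧ ¬ j % 4 < 2 := by omega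
        rw [if_pos h6.1, if_neg h6.2]
      have hz : ((e i * s ^ (i / 4) * k, 0) : ℝ × ℝ) ∈ lineOf (f i) := by
        show e i * r ^ (i / 4) * (e i * s ^ (i / 4) * k) + e i * g i * s ^ (i / 4) * 0 = k
        linear_combination k * (r ^ (i / 4) * s ^ (i / 4)) * e_sq i + k * rs_pow (i / 4)
      rw [heq] at hz
      have hz' : e j * r ^ (j / 4) * (e i * s ^ (i / 4) * k) + e j * g j * s ^ (j / 4) * 0 = k :=
        hz
      rw [hje, hm, add_zero] at hz'
      have : - k = k := by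
        linear_combination hz' + k * (r ^ (i / 4) * s ^ (i / 4)) * e_sq i + k * rs_pow (i / 4)
      linarith [k_pos]
    · exact lineOf_ne hd heq
  intro i j hij
  by_contra h
  rcases lt_or_gt_of_ne h with h | h
  · exact key i j h hij
  · exact key j i h hij.symm

end MaxTri.S3
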